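import Pool.Agent.V11124.SeqCycle

open SimpleGraph

namespace Pool.Agent.Results.MP_6859a2_co.ExactValue

/-- `G` has no induced claw -/
def IsClawFree {V : Type} (G : SimpleGraph V) : Prop :=
  IsEmpty (completeBipartiteGraph (Fin 1) (Fin 3) ↪g G)

/-- `G` is `c`-connected -/
def IsConn {V : Type} [Fintype V] (G : SimpleGraph V) (c : ℕ) : Prop :=
  c < Fintype.card V ∧ ∀ X : Finset V, X.card < c → (G.induce ((X : Set V)ᶜ)).Connected

/-- the vertices `v 0, ..., v (k-1)` are separated by `k` disjoint cycles -/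
def Separated {V : Type} (G : SimpleGraph V) {k : ℕ} (v : Fin k → V) : Prop :=
  ∃ w : ∀ i : Fin k, G.Walk (v i) (v i), (∀ i, (w i).IsCycle) ∧
    ∀ i j, i ≠ j → ∀ x ∈ (w i).support, x ∉ (w j).support

/-- connectivity `c` suffices for `k` prescribed vertices in claw-free graphs -/
def Suffices (k c : ℕ) : Prop :=
  ∀ (V : Type) [Fintype V] (G : SimpleGraph V), IsConn G c → IsClawFree G →
    ∀ v : Fin k → V, Function.Injective v → Separated G v

/-- `f(k)`: the least `c` that suffices, `⊤` if there is none -/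
noncomputable def f (k : ℕ) : ℕ∞ := ⨅ (c : ℕ) (_ : Suffices k c), (c : ℕ∞)

theorem clawFree_pair {V : Type} {G : SimpleGraph V} (h : IsClawFree G) {v a b c : V} (ha : G.Adj v a)
    (hb : G.Adj v b) (hc : G.Adj v c) (hab : a ≠ b) (hac : a ≠ c) (hbc : b ≠ c) :
    G.Adj a b ∨ G.Adj a c ∨ G.Adj b c := by
  by_contra hcon
  push Not at hcon
  obtain ⟨h1, h2, h3⟩ := hcon
  have hva := ha.ne
  have hvb := hb.ne
  have hvc := hc.ne
  let g : Fin 1 ⊕ Fin 3 → V := fun x => match x with
    | Sum.inl _ => v
    | Sum.inr 0 => a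
    | Sum.inr 1 => b
    | Sum.inr 2 => c
  refine h.false ⟨⟨g, ?_⟩, ?_⟩
  · intro x y hxy
    rcases x with x | x <;> rcases y with y | y
    · congr 1; omega
    · fin_cases y
      · exact absurd hxy hva
      · exact absurd hxy hvb
      · exact absurd hxy hvc
    · fin_cases x
      · exact absurd hxy.symm hva
      · exact absurd hxy.symm hvb
      · exact absurd hxy.symm hvc
    · fin_cases x <;> fin_cases y
      · rfl
      · exact absurd hxy hab
      · exact absurd hxy hac
      · exact absurd hxy.symm hab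
      · rfl
      · exact absurd hxy hbc
      · exact absurd hxy.symm hac
      · exact absurd hxy.symm hbc
      · rfl
  · intro x y
    change G.Adj (g x) (g y) ↔ _
    rcases x with x | x <;> rcases y with y | y
    · simp [g]
    · fin_cases y
      · simpa [g] using ha
      · simpa [g] using hb
      · simpa [g] using hc
    · fin_cases x
      · simpa [g] using ha.symm
      · simpa [g] using hb.symm
      · simpa [g] using hc.symm
    · fin_cases x <;> fin_cases y
      · simp [g]
      · simpa [g] using h1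
      · simpa [g] using h2
      · simpa [g] using fun h => h1 (G.adj_symm h)
      · simp [g]
      · simpa [g] using h3
      · simpa [g] using fun h => h2 (G.adj_symm h)
      · simpa [g] using fun h => h3 (G.adj_symm h)
      · simp [g]

theorem min_degree {V : Type} [Fintype V] [DecidableEq V] {G : SimpleGraph V} [DecidableRel G.Adj] {c : ℕ}
    (h : IsConn G c) (v : V) : c ≤ (G.neighborFinset v).card := by
  by_contra hcon
  push Not at hcon
  have h1 := h.2 _ hcon
  have hcard : (insert v (G.neighborFinset v)).card < Fintype.card V := by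
    have := Finset.card_insert_le v (G.neighborFinset v)
    have := h.1
    omega
  obtain ⟨u, hu⟩ : ∃ u, u ∉ insert v (G.neighborFinset v) := by
    by_contra hall
    push Not at hall
    have : insert v (G.neighborFinset v) = Finset.univ := Finset.eq_univ_iff_forall.2 hall
    rw [this, Finset.card_univ] at hcard
    omega
  rw [Finset.mem_insert, not_or] at hu
  have hv' : v ∈ ((G.neighborFinset v : Set V)ᶜ) := by simp
  have hu' : u ∈ ((G.neighborFinset v : Set V)ᶜ) := by simpa using hu.2
  obtain ⟨w⟩ := h1.preconnected ⟨v, hv'⟩ ⟨u, hu'⟩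
  cases w with
  | nil => exact hu.1 rfl
  | @cons _ x _ hadj _ =>
    have h2 : G.Adj v x.1 := hadj
    exact x.2 (by simpa using h2)

/-- greedy choice of triangles -/
theorem triangles {V : Type} [Fintype V] [DecidableEq V] {G : SimpleGraph V} [DecidableRel G.Adj] {k : ℕ}
    (hcf : IsClawFree G) (hdeg : ∀ v, 3 * k - 1 ≤ (G.neighborFinset v).card) (v : Fin k → V)
    (s : Finset (Fin k)) (hs : s.card + 1 ≤ k) :
    ∃ a b : Fin k → V,
      (∀ j ∈ s, G.Adj (v j) (a j) ∧ G.Adj (v j) (b j) ∧ G.Adj (a j) (b j) ∧ (∀ l, a j ≠ v l) ∧ (∀ l, b j ≠ v l)) ∧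
      ∀ j ∈ s, ∀ l ∈ s, j ≠ l → a j ≠ a l ∧ b j ≠ b l ∧ a j ≠ b l ∧ b j ≠ a l := by
  induction s using Finset.induction_on with
  | empty => exact ⟨v, v, by simp, by simp⟩
  | @insert x s hx ih =>
    rw [Finset.card_insert_of_notMem hx] at hs
    obtain ⟨a, b, h1, h2⟩ := ih (by omega)
    set U : Finset V := ((Finset.univ.erase x).image v ∪ s.image a) ∪ s.image b with hU
    have hUc : U.card ≤ (k - 1) + s.card + s.card := by
      rw [hU]
      refine (Finset.card_union_le _ _).trans (Nat.add_le_add ((Finset.card_union_le _ _).trans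
        (Nat.add_le_add (Finset.card_image_le.trans ?_) Finset.card_image_le)) Finset.card_image_le)
      rw [Finset.card_erase_of_mem (Finset.mem_univ _), Finset.card_univ, Fintype.card_fin]
    have h3 : 2 < ((G.neighborFinset (v x)) \ U).card := by
      have := Finset.le_card_sdiff U (G.neighborFinset (v x))
      have := hdeg (v x)
      omega
    obtain ⟨p, hp, q, hq, r, hr, hpq, hpr, hqr⟩ := Finset.two_lt_card.1 h3
    have key : ∃ p q, p ∈ (G.neighborFinset (v x)) \ U ∧ q ∈ (G.neighborFinset (v x)) \ U ∧ G.Adj p q := by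
      have hp' := (Finset.mem_sdiff.1 hp).1
      have hq' := (Finset.mem_sdiff.1 hq).1
      have hr' := (Finset.mem_sdiff.1 hr).1
      rw [mem_neighborFinset] at hp' hq' hr'
      rcases clawFree_pair hcf hp' hq' hr' hpq hpr hqr with h | h | h
      · exact ⟨p, q, hp, hq, h⟩
      · exact ⟨p, r, hp, hr, h⟩
      · exact ⟨q, r, hq, hr, h⟩
    obtain ⟨p, q, hp, hq, hadj⟩ := key
    rw [Finset.mem_sdiff, mem_neighborFinset] at hp hq
    have hnotU : ∀ z, G.Adj (v x) z → z ∉ U → (∀ l, z ≠ v l) ∧ (∀ j ∈ s, z ≠ a j) ∧ (∀ j ∈ s, z ≠ b j) := by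
      intro z hz hzU
      simp only [hU, Finset.mem_union, Finset.mem_image, Finset.mem_erase, Finset.mem_univ, and_true, not_or,
        not_exists, not_and] at hzU
      refine ⟨fun l hl => ?_, fun j hj h => hzU.1.2 j hj h.symm, fun j hj h => hzU.2 j hj h.symm⟩
      by_cases hlx : l = x
      · subst hlx
        exact hz.ne hl.symm
      · exact hzU.1.1 l hlx hl.symm
    obtain ⟨p1, p2, p3⟩ := hnotU p hp.1 hp.2
    obtain ⟨q1, q2, q3⟩ := hnotU q hq.1 hq.2
    refine ⟨Function.update a x p, Function.update b x q, ?_, ?_⟩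
    · intro j hj
      rw [Finset.mem_insert] at hj
      by_cases hjx : j = x
      · subst hjx
        simp only [Function.update_self]
        exact ⟨hp.1, hq.1, hadj, p1, q1⟩
      · have hjs : j ∈ s := hj.resolve_left hjx
        simp only [Function.update_of_ne hjx]
        exact h1 j hjs
    · intro j hj l hl hjl
      rw [Finset.mem_insert] at hj hl
      by_cases hjx : j = x
      · subst hjx
        have hlx : l ≠ j := hjl.symm
        have hls : l ∈ s := hl.resolve_left hlx
        simp only [Function.update_self, Function.update_of_ne hlx]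
        exact ⟨p2 l hls, q3 l hls, p3 l hls, q2 l hls⟩
      · have hjs : j ∈ s := hj.resolve_left hjx
        by_cases hlx : l = x
        · subst hlx
          simp only [Function.update_self, Function.update_of_ne hjx]
          exact ⟨(p2 j hjs).symm, (q3 j hjs).symm, (q2 j hjs).symm, (p3 j hjs).symm⟩
        · have hls : l ∈ s := hl.resolve_left hlx
          simp only [Function.update_of_ne hjx, Function.update_of_ne hlx]
          exact h2 j hjs l hls hjl

theorem upper (k : ℕ) (hk : 1 ≤ k) : Suffices k (3 * k - 1) := by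
  intro V _ G hconn hcf v hv
  classical
  have hdeg : ∀ u, 3 * k - 1 ≤ (G.neighborFinset u).card := fun u => min_degree hconn u
  set z : Fin k := ⟨k - 1, by omega⟩ with hz
  set s : Finset (Fin k) := Finset.univ.erase z with hs
  have hscard : s.card = k - 1 := by
    rw [hs, Finset.card_erase_of_mem (Finset.mem_univ _), Finset.card_univ, Fintype.card_fin]
  obtain ⟨a, b, h1, h2⟩ := triangles hcf hdeg v s (by omega)
  set X : Finset V := (s.image v ∪ s.image a) ∪ s.image b with hX
  have hXc : X.card ≤ 3 * (k - 1) := by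
    rw [hX]
    have e1 := Finset.card_union_le (s.image v ∪ s.image a) (s.image b)
    have e2 := Finset.card_union_le (s.image v) (s.image a)
    have e3 : (s.image v).card ≤ s.card := Finset.card_image_le
    have e4 : (s.image a).card ≤ s.card := Finset.card_image_le
    have e5 : (s.image b).card ≤ s.card := Finset.card_image_le
    omega
  have hmemX : ∀ y, y ∈ X ↔ ∃ j, j ≠ z ∧ (v j = y ∨ a j = y ∨ b j = y) := by
    intro y
    simp only [hX, hs, Finset.mem_union, Finset.mem_image, Finset.mem_erase, Finset.mem_univ, and_true]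
    constructor
    · rintro ((⟨j, hj, h⟩ | ⟨j, hj, h⟩) | ⟨j, hj, h⟩)
      · exact ⟨j, hj, Or.inl h⟩
      · exact ⟨j, hj, Or.inr (Or.inl h)⟩
      · exact ⟨j, hj, Or.inr (Or.inr h)⟩
    · rintro ⟨j, hj, h | h | h⟩
      · exact Or.inl (Or.inl ⟨j, hj, h⟩)
      · exact Or.inl (Or.inr ⟨j, hj, h⟩)
      · exact Or.inr ⟨j, hj, h⟩
  have hmems : ∀ j, j ≠ z → j ∈ s := fun j hj => by simp [hs, hj]
  have hzX : v z ∉ X := by
    rw [hmemX]
    rintro ⟨j, hj, h | h | h⟩
    · exact hj (hv h)
    · exact (h1 j (hmems j hj)).2.2.2.1 z h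
    · exact (h1 j (hmems j hj)).2.2.2.2 z h
  -- two neighbours of `v z` outside `X`
  have h3 : 1 < ((G.neighborFinset (v z)) \ X).card := by
    have := Finset.le_card_sdiff X (G.neighborFinset (v z))
    have := hdeg (v z)
    omega
  obtain ⟨p, hp, q, hq, hpq⟩ := Finset.one_lt_card.1 h3
  rw [Finset.mem_sdiff, mem_neighborFinset] at hp hq
  have hc2 : (insert (v z) X).card < 3 * k - 1 := by
    have := Finset.card_insert_le (v z) X
    omega
  have h4 := hconn.2 _ hc2
  have hp' : p ∈ ((insert (v z) X : Finset V) : Set V)ᶜ := by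
    simp only [Finset.coe_insert, Set.mem_compl_iff, Set.mem_insert_iff, Finset.mem_coe, not_or]
    exact ⟨hp.1.ne', hp.2⟩
  have hq' : q ∈ ((insert (v z) X : Finset V) : Set V)ᶜ := by
    simp only [Finset.coe_insert, Set.mem_compl_iff, Set.mem_insert_iff, Finset.mem_coe, not_or]
    exact ⟨hq.1.ne', hq.2⟩
  obtain ⟨w, hw⟩ := (h4.preconnected ⟨p, hp'⟩ ⟨q, hq'⟩).exists_isPath
  let φ : G.induce (((insert (v z) X : Finset V) : Set V)ᶜ) →g G := (SimpleGraph.Embedding.induce _).toHom
  have hφ : Function.Injective φ := fun a b h => Subtype.ext h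
  have hwp : (w.map φ).IsPath := hw.map hφ
  have hwsup : ∀ y ∈ (w.map φ).support, y ≠ v z ∧ y ∉ X := by
    intro y hy
    rw [Walk.support_map, List.mem_map] at hy
    obtain ⟨y', -, rfl⟩ := hy
    have := y'.2
    simp only [Finset.coe_insert, Set.mem_compl_iff, Set.mem_insert_iff, Finset.mem_coe, not_or] at this
    exact this
  -- the last cycle
  have hlast : ∃ c : G.Walk (v z) (v z), c.IsCycle ∧ ∀ y ∈ c.support, y ∉ X := by
    obtain ⟨w', hwp, hwsup⟩ : ∃ w' : G.Walk p q, w'.IsPath ∧ ∀ y ∈ w'.support, y ≠ v z ∧ y ∉ X :=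
      ⟨w.map φ, hwp, hwsup⟩
    have hpath : (w'.concat hq.1.symm).IsPath :=
      hwp.concat (fun h => (hwsup _ h).1 rfl) _
    refine ⟨Walk.cons hp.1 (w'.concat hq.1.symm), ?_, ?_⟩
    · rw [Walk.cons_isCycle_iff]
      refine ⟨hpath, fun he => ?_⟩
      rw [Walk.edges_concat, List.concat_eq_append, List.mem_append, List.mem_singleton] at he
      rcases he with he | he
      · exact (hwsup _ (Walk.fst_mem_support_of_mem_edges _ he)).1 rfl
      · rw [Sym2.eq_iff] at he
        rcases he with ⟨h5, h6⟩ | ⟨h5, h6⟩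
        · exact hq.1.ne h5
        · exact hpq h6
    · intro y hy
      rw [Walk.support_cons, List.mem_cons, Walk.support_concat, List.mem_append, List.mem_singleton] at hy
      rcases hy with rfl | hy | rfl
      · exact hzX
      · exact (hwsup _ hy).2
      · exact hzX
  obtain ⟨c, hc, hcX⟩ := hlast
  -- the triangles
  have htri : ∀ j, j ≠ z → ∃ c : G.Walk (v j) (v j), c.IsCycle ∧ ∀ y, y ∈ c.support ↔ (y = v j ∨ y = a j ∨ y = b j) := by
    intro j hj
    obtain ⟨g1, g2, g3, g4, g5⟩ := h1 j (hmems j hj)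
    refine ⟨Walk.cons g1 (Walk.cons g3 (Walk.cons g2.symm Walk.nil)), ?_, ?_⟩
    · rw [Walk.cons_isCycle_iff]
      have n1 := g1.ne
      have n2 := g2.ne
      have n3 := g3.ne
      simp [n1, n2, n3, n1.symm, n2.symm]
    · intro y
      simp
      tauto
  have hall : ∀ j, ∃ c : G.Walk (v j) (v j), c.IsCycle ∧
      (j ≠ z → ∀ y, y ∈ c.support ↔ (y = v j ∨ y = a j ∨ y = b j)) ∧ (j = z → ∀ y ∈ c.support, y ∉ X) := by
    intro j
    by_cases hj : j = z
    · subst hj
      exact ⟨c, hc, fun h => absurd rfl h, fun _ => hcX⟩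
    · obtain ⟨c', hc', hc''⟩ := htri j hj
      exact ⟨c', hc', fun _ => hc'', fun h => absurd h hj⟩
  choose W hW1 hW2 hW3 using hall
  refine ⟨W, hW1, ?_⟩
  have hinX : ∀ j, j ≠ z → ∀ y ∈ (W j).support, y ∈ X := by
    intro j hj y hy
    rw [hmemX]
    rcases (hW2 j hj y).1 hy with h | h | h
    · exact ⟨j, hj, Or.inl h.symm⟩
    · exact ⟨j, hj, Or.inr (Or.inl h.symm)⟩
    · exact ⟨j, hj, Or.inr (Or.inr h.symm)⟩
  intro i j hij x hxi hxj
  by_cases hi : i = z
  · by_cases hj : j = z
    · exact hij (hi.trans hj.symm)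
    · exact hW3 i hi x hxi (hinX j hj x hxj)
  · by_cases hj : j = z
    · exact hW3 j hj x hxj (hinX i hi x hxi)
    · obtain ⟨g1, g2, g3, g4⟩ := h2 i (hmems i hi) j (hmems j hj) hij
      obtain ⟨-, -, -, e4, e5⟩ := h1 i (hmems i hi)
      obtain ⟨-, -, -, f4, f5⟩ := h1 j (hmems j hj)
      rcases (hW2 i hi x).1 hxi with rfl | rfl | rfl <;> rcases (hW2 j hj _).1 hxj with h | h | h
      · exact hij (hv h)
      · exact f4 i h.symm
      · exact f5 i h.symm
      · exact e4 j h
      · exact g1 h
      · exact g3 h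
      · exact e5 j h
      · exact g4 h
      · exact g2 h

theorem lower (k c : ℕ) (hk : 1 ≤ k) (h : Suffices k c) : 3 * k - 1 ≤ c := by
  by_contra hcon
  push Not at hcon
  have hconn : IsConn (⊤ : SimpleGraph (Fin (3 * k - 1))) c := by
    refine ⟨by simpa using hcon, fun X hX => ?_⟩
    have hne : Nonempty ((X : Set (Fin (3 * k - 1)))ᶜ : Set (Fin (3 * k - 1))) := by
      by_contra hemp
      rw [Set.nonempty_coe_sort, Set.not_nonempty_iff_eq_empty, Set.compl_empty_iff] at hemp
      have : X = Finset.univ := by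
        rw [← Finset.coe_eq_univ]; exact hemp
      rw [this, Finset.card_univ, Fintype.card_fin] at hX
      omega
    rw [connected_iff]
    refine ⟨fun x y => ?_, hne⟩
    by_cases hxy : x = y
    · rw [hxy]
    · have : ((⊤ : SimpleGraph (Fin (3 * k - 1))).induce ((X : Set (Fin (3 * k - 1)))ᶜ)).Adj x y := by
        simp only [comap_adj, top_adj]
        exact fun h => hxy (Subtype.ext h)
      exact this.reachable
  have hcf : IsClawFree (⊤ : SimpleGraph (Fin (3 * k - 1))) := by
    refine ⟨fun g => ?_⟩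
    have h1 : (⊤ : SimpleGraph (Fin (3 * k - 1))).Adj (g (Sum.inr 0)) (g (Sum.inr 1)) := by
      rw [top_adj]
      intro h2
      have := g.injective h2
      simp at this
    rw [g.map_adj_iff] at h1
    simp at h1
  obtain ⟨w, hw, hdis⟩ := h (Fin (3 * k - 1)) ⊤ hconn hcf (fun i => ⟨i.1, by omega⟩) (fun a b hab => by
    simpa [Fin.ext_iff] using hab)
  have h1 : ∀ i, 3 ≤ ((w i).support.toFinset).card := by
    intro i
    have h2 := (Pool.Agent.V11124.SeqCycle.cycle_set (w i) (hw i)).1
    have h3 := (hw i).three_le_length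
    rw [← h2] at h3
    have h4 : ({x | x ∈ (w i).support} : Set (Fin (3 * k - 1))) = ((w i).support.toFinset : Set (Fin (3 * k - 1))) := by
      ext x; simp
    rwa [h4, Set.ncard_coe_finset] at h3
  have h2 : (Finset.univ.biUnion (fun i => (w i).support.toFinset)).card = ∑ i : Fin k, ((w i).support.toFinset).card := by
    apply Finset.card_biUnion
    intro i _ j _ hij
    change Disjoint (w i).support.toFinset (w j).support.toFinset
    rw [Finset.disjoint_left]
    intro x hx hx'
    rw [List.mem_toFinset] at hx hx'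
    exact hdis i j hij x hx hx'
  have h3 := Finset.card_le_univ (Finset.univ.biUnion (fun i => (w i).support.toFinset))
  have h4 : ∑ i : Fin k, 3 ≤ ∑ i : Fin k, ((w i).support.toFinset).card := Finset.sum_le_sum (fun i _ => h1 i)
  rw [h2, Fintype.card_fin] at h3
  simp at h4
  omega

/-- `f(k) = 3k - 1` for every `k ≥ 1`. -/
theorem result : ∀ k : ℕ, 1 ≤ k → f k = ((3 * k - 1 : ℕ) : ℕ∞) := by
  intro k hk
  apply le_antisymm
  · exact iInf₂_le (3 * k - 1) (upper k hk)
  · refine le_iInf₂ (fun c hc => ?_)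
    exact_mod_cast lower k c hk hc

end Pool.Agent.Results.MP_6859a2_co.ExactValue
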